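import Mathlib

/-!
# The two ultrafilter exponentiations coincide only at trivial pairs (MP_846ee0_co)

For ultrafilters `p`, `q` on the positive integers, `E1 p q = E2 p q` if and only if `p` and `q` are
principal, at `n` and `m` say, with `n ^ m = m ^ n`. In particular there is no pair of nonprincipal
ultrafilters with `E1 p q = E2 p q`, and none with `E1 p p = E2 p p`.
The two ultrafilters are separated by the parity of the position of a number with respect to one of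
the two towers `2, 2^2, 2^(2^2), ...` and `3, 2^3, 2^(2^3), ...`.
-/

namespace Pool.Agent.Results.MP_846ee0_co.OnlyTrivial

open Filter Set

/-- The first exponentiation: `A ∈ E1 p q ↔ {n | {m | n ^ m ∈ A} ∈ q} ∈ p`. -/
def E1 (p q : Ultrafilter ℕ+) : Ultrafilter ℕ+ := p.bind fun n => q.map fun m : ℕ+ => n ^ (m : ℕ)

/-- The second exponentiation: `A ∈ E2 p q ↔ {n | {m | m ^ n ∈ A} ∈ q} ∈ p`. -/
def E2 (p q : Ultrafilter ℕ+) : Ultrafilter ℕ+ := p.bind fun n => q.map fun m : ℕ+ => m ^ (n : ℕ)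

theorem mem_E1 (p q : Ultrafilter ℕ+) (A : Set ℕ+) :
    A ∈ E1 p q ↔ {n : ℕ+ | {m : ℕ+ | n ^ (m : ℕ) ∈ A} ∈ q} ∈ p := Iff.rfl

theorem mem_E2 (p q : Ultrafilter ℕ+) (A : Set ℕ+) :
    A ∈ E2 p q ↔ {n : ℕ+ | {m : ℕ+ | m ^ (n : ℕ) ∈ A} ∈ q} ∈ p := Iff.rfl

/-- The tower starting at `a`. -/
def tower (a : ℕ) : ℕ → ℕ
  | 0 => a
  | n + 1 => 2 ^ tower a n

theorem tower_lt_succ (a n : ℕ) : tower a n < tower a (n + 1) := Nat.lt_two_pow_self

theorem tower_strictMono (a : ℕ) : StrictMono (tower a) := strictMono_nat_of_lt_succ (tower_lt_succ a)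

theorem le_tower (a n : ℕ) : n ≤ tower a n := (tower_strictMono a).le_apply

theorem tower_lt_tower {a b : ℕ} (h : a < b) (n : ℕ) : tower a n < tower b n := by
  induction n with
  | zero => exact h
  | succ n ih => exact Nat.pow_lt_pow_right (by norm_num) ih

theorem tower_gap {a b : ℕ} (h : a < b) (n : ℕ) :
    (tower a (n + 3)) ^ (tower a (n + 2)) ≤ tower b (n + 3) := by
  have h0 : tower a n + 1 ≤ tower b n := tower_lt_tower h n
  have h1 : 2 * tower a (n + 1) ≤ tower b (n + 1) := by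
    show 2 * 2 ^ tower a n ≤ 2 ^ tower b n
    rw [← pow_succ']
    exact Nat.pow_le_pow_right (by norm_num) h0
  have h2 : tower a (n + 2) * tower a (n + 2) ≤ tower b (n + 2) := by
    show 2 ^ tower a (n + 1) * 2 ^ tower a (n + 1) ≤ 2 ^ tower b (n + 1)
    rw [← pow_add]
    exact Nat.pow_le_pow_right (by norm_num) (by omega)
  show (2 ^ tower a (n + 2)) ^ (tower a (n + 2)) ≤ 2 ^ tower b (n + 2)
  rw [← pow_mul]
  exact Nat.pow_le_pow_right (by norm_num) h2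

theorem tower_gap' {a b : ℕ} (h : a < b) (N k : ℕ) (hk : N + 3 ≤ k) (hN : 0 < N) :
    (tower a k) ^ N ≤ tower b k := by
  obtain ⟨n, rfl⟩ : ∃ n, k = n + 3 := ⟨k - 3, by omega⟩
  refine le_trans ?_ (tower_gap h n)
  have h1 : N ≤ tower a (n + 2) := by
    have := le_tower a (n + 2)
    omega
  have h2 : 0 < tower a (n + 3) := by
    have := le_tower a (n + 3)
    omega
  exact Nat.pow_le_pow_right h2 h1

theorem tower_shift (n : ℕ) : tower 2 (n + 1) = tower 4 n := by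
  induction n with
  | zero => rfl
  | succ n ih =>
    show 2 ^ tower 2 (n + 1) = 2 ^ tower 4 n
    rw [ih]

/-- The two towers cannot both have an element in `(m, m ^ N]` when `m` is large. -/
theorem no_both (N : ℕ) (hN : 0 < N) : ∃ M : ℕ, ∀ m, M ≤ m → ¬ ((∃ j, m < tower 2 j ∧
    tower 2 j ≤ m ^ N) ∧ (∃ i, m < tower 3 i ∧ tower 3 i ≤ m ^ N)) := by
  refine ⟨tower 3 (N + 3), fun m hm ⟨⟨j, hj1, hj2⟩, ⟨i, hi1, hi2⟩⟩ => ?_⟩
  have hi : N + 3 ≤ i := by
    have : tower 3 (N + 3) < tower 3 i := lt_of_le_of_lt hm hi1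
    exact ((tower_strictMono 3).lt_iff_lt.1 this).le
  have hj : N + 3 ≤ j := by
    have h1 : tower 2 (N + 3) < tower 3 (N + 3) := tower_lt_tower (by norm_num) _
    have h2 : tower 2 (N + 3) < tower 2 j := h1.trans (lt_of_le_of_lt hm hj1)
    exact ((tower_strictMono 2).lt_iff_lt.1 h2).le
  rcases le_or_gt j i with h | h
  · have h1 : tower 2 j ^ N ≤ tower 3 j := tower_gap' (by norm_num) N j hj hN
    have h2 : tower 3 j ≤ tower 3 i := (tower_strictMono 3).monotone h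
    have h3 : m ^ N < tower 2 j ^ N := Nat.pow_lt_pow_left hj1 hN.ne'
    omega
  · have h1 : tower 3 i ^ N ≤ tower 4 i := tower_gap' (by norm_num) N i hi hN
    rw [← tower_shift] at h1
    have h2 : tower 2 (i + 1) ≤ tower 2 j := (tower_strictMono 2).monotone h
    have h3 : m ^ N < tower 3 i ^ N := Nat.pow_lt_pow_left hi1 hN.ne'
    omega

/-- The position of `x` with respect to the tower starting at `a` is `j`. -/
def Pos (a x j : ℕ) : Prop := tower a j ≤ x ∧ x < tower a (j + 1)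

theorem Pos.unique {a x i j : ℕ} (h : Pos a x i) (h' : Pos a x j) : i = j := by
  have h1 : i < j + 1 := (tower_strictMono a).lt_iff_lt.1 (lt_of_le_of_lt h.1 h'.2)
  have h2 : j < i + 1 := (tower_strictMono a).lt_iff_lt.1 (lt_of_le_of_lt h'.1 h.2)
  omega

theorem exists_pos {a x : ℕ} (h : a ≤ x) : ∃ j, Pos a x j := by
  have hex : ∃ j, x < tower a j := ⟨x + 1, lt_of_lt_of_le (Nat.lt_succ_self x) (le_tower a (x + 1))⟩
  classical
  have h0 : Nat.find hex ≠ 0 := by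
    intro h0
    have := Nat.find_spec hex
    rw [h0] at this
    exact absurd h (not_le.2 this)
  obtain ⟨k, hk⟩ := Nat.exists_eq_succ_of_ne_zero h0
  refine ⟨k, ?_, ?_⟩
  · by_contra hlt
    have := Nat.find_min' hex (not_le.1 hlt)
    omega
  · have := Nat.find_spec hex
    rwa [hk] at this

/-- The set of numbers with even position. -/
def Ev (a : ℕ) : Set ℕ+ := {x | ∃ j, Even j ∧ Pos a x j}

theorem mem_Ev {a : ℕ} {x : ℕ+} {j : ℕ} (h : Pos a x j) : x ∈ Ev a ↔ Even j :=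
  ⟨fun ⟨i, hi, hp⟩ => h.unique hp ▸ hi, fun hj => ⟨j, hj, h⟩⟩

/-- For one of the towers, all intervals `(m, m ^ n]` are avoided. -/
theorem key {a : ℕ} (ha : 2 ≤ a) (p q : Ultrafilter ℕ+) (hp1 : {n : ℕ+ | 1 < n} ∈ p)
    (hq : ∀ n : ℕ+, {m | n < m} ∈ q)
    (hgood : ∀ N : ℕ, {m : ℕ+ | ¬ ∃ j, (m : ℕ) < tower a j ∧ tower a j ≤ (m : ℕ) ^ N} ∈ q) :
    E1 p q ≠ E2 p q := by
  intro heq
  -- `E2`: membership in `Ev` is preserved
  have h2 : ∀ n : ℕ+, ∀ᶠ m in (q : Filter ℕ+), (m ^ (n : ℕ) ∈ Ev a ↔ m ∈ Ev a) := by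
    intro n
    filter_upwards [hgood n, hq ⟨a, by omega⟩] with m hm hma
    have hma' : a ≤ (m : ℕ) := le_of_lt hma
    obtain ⟨j, hj⟩ := exists_pos hma'
    have hj' : Pos a ((m ^ (n : ℕ) : ℕ+) : ℕ) j := by
      rw [PNat.pow_coe]
      refine ⟨hj.1.trans (Nat.le_self_pow n.ne_zero _), ?_⟩
      by_contra hcon
      exact hm ⟨j + 1, hj.2, not_lt.1 hcon⟩
    rw [mem_Ev hj, mem_Ev hj']
  have h1 : ∀ n : ℕ+, 1 < n → ∀ᶠ m : ℕ+ in (q : Filter ℕ+), (n ^ (m : ℕ) ∈ Ev a ↔ m ∉ Ev a) := by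
    intro n hn1
    filter_upwards [hgood 2, hq ⟨a, by omega⟩, hq n] with m hm hma hnm
    have hma' : a ≤ (m : ℕ) := le_of_lt hma
    have hnm' : (n : ℕ) < m := hnm
    have hn1' : 1 < (n : ℕ) := hn1
    obtain ⟨j, hj⟩ := exists_pos hma'
    have hj' : Pos a ((n ^ (m : ℕ) : ℕ+) : ℕ) (j + 1) := by
      rw [PNat.pow_coe]
      constructor
      · show 2 ^ tower a j ≤ _
        calc 2 ^ tower a j ≤ 2 ^ (m : ℕ) := Nat.pow_le_pow_right (by norm_num) hj.1
          _ ≤ (n : ℕ) ^ (m : ℕ) := Nat.pow_le_pow_left hn1' _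
      · show _ < 2 ^ tower a (j + 1)
        have h3 : (m : ℕ) ^ 2 < tower a (j + 1) := by
          by_contra hcon
          exact hm ⟨j + 1, hj.2, not_lt.1 hcon⟩
        calc (n : ℕ) ^ (m : ℕ) ≤ (2 ^ (m : ℕ)) ^ (m : ℕ) :=
              Nat.pow_le_pow_left (hnm'.le.trans (Nat.lt_two_pow_self).le) _
          _ = 2 ^ ((m : ℕ) ^ 2) := by rw [← pow_mul, sq]
          _ < 2 ^ tower a (j + 1) := Nat.pow_lt_pow_right (by norm_num) h3
    rw [mem_Ev hj, mem_Ev hj', Nat.even_add_one]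
  -- conclusion
  have hE2 : Ev a ∈ E2 p q ↔ Ev a ∈ q := by
    rw [mem_E2]
    constructor
    · intro h
      obtain ⟨n, hn⟩ := p.nonempty_of_mem h
      have hn' : {m : ℕ+ | m ^ (n : ℕ) ∈ Ev a} ∈ q := hn
      filter_upwards [hn', h2 n] with m hm hm2
      exact hm2.1 hm
    · intro h
      refine mem_of_superset univ_mem fun n _ => ?_
      show {m : ℕ+ | m ^ (n : ℕ) ∈ Ev a} ∈ q
      filter_upwards [h, h2 n] with m hm hm2
      exact hm2.2 hm
  have hE1 : Ev a ∈ E1 p q ↔ Ev a ∉ q := by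
    rw [mem_E1]
    constructor
    · intro h
      obtain ⟨n, hn, hn1⟩ := p.nonempty_of_mem (inter_mem h hp1)
      have hn' : {m : ℕ+ | n ^ (m : ℕ) ∈ Ev a} ∈ q := hn
      intro hEv
      obtain ⟨m, ⟨hm1, hm2⟩, hm3⟩ := q.nonempty_of_mem (inter_mem (inter_mem hn' (h1 n hn1)) hEv)
      exact (hm2.1 hm1) hm3
    · intro h
      have hc : (Ev a)ᶜ ∈ q := (Ultrafilter.compl_mem_iff_notMem).2 h
      filter_upwards [hp1] with n hn
      show {m : ℕ+ | n ^ (m : ℕ) ∈ Ev a} ∈ q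
      filter_upwards [hc, h1 n hn] with m hm hm2
      exact hm2.2 hm
  rw [← heq, hE1] at hE2
  tauto

/-- an ultrafilter without large elements is principal -/
theorem large {q : Ultrafilter ℕ+} (hq : ∀ n : ℕ+, q ≠ pure n) (n : ℕ+) : {m | n < m} ∈ q := by
  by_contra hcon
  have h1 : {m | n < m}ᶜ ∈ q := (Ultrafilter.compl_mem_iff_notMem).2 hcon
  have h2 : ({m : ℕ+ | n < m}ᶜ : Set ℕ+).Finite := by
    have : ({m : ℕ+ | n < m}ᶜ : Set ℕ+) = Set.Iic n := by
      ext m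
      show ¬ n < m ↔ m ≤ n
      exact not_lt
    rw [this]
    exact Set.finite_Iic n
  obtain ⟨r, -, hr⟩ := Ultrafilter.eq_pure_of_finite_mem h2 h1
  exact hq r hr

/-- the case of a nonprincipal second argument -/
theorem second (p q : Ultrafilter ℕ+) (hq : ∀ n : ℕ+, q ≠ pure n) : E1 p q ≠ E2 p q := by
  have hlarge := large hq
  by_cases hp1 : {n : ℕ+ | 1 < n} ∈ p
  · by_cases h2 : ∀ N : ℕ, {m : ℕ+ | ¬ ∃ j, (m : ℕ) < tower 2 j ∧ tower 2 j ≤ (m : ℕ) ^ N} ∈ q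
    · exact key (by norm_num) p q hp1 hlarge h2
    by_cases h3 : ∀ N : ℕ, {m : ℕ+ | ¬ ∃ j, (m : ℕ) < tower 3 j ∧ tower 3 j ≤ (m : ℕ) ^ N} ∈ q
    · exact key (by norm_num) p q hp1 hlarge h3
    exfalso
    push Not at h2 h3
    obtain ⟨N, hN⟩ := h2
    obtain ⟨N', hN'⟩ := h3
    have h2' := (Ultrafilter.compl_mem_iff_notMem).2 hN
    have h3' := (Ultrafilter.compl_mem_iff_notMem).2 hN'
    set R := max (max N N') 1 with hR
    have hR1 : 0 < R := by omega
    obtain ⟨M, hM⟩ := no_both R hR1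
    obtain ⟨m, ⟨hm1, hm2⟩, hm3⟩ :=
      q.nonempty_of_mem (inter_mem (inter_mem h2' h3') (hlarge ⟨M + 1, by omega⟩))
    have hm3' : M + 1 < (m : ℕ) := hm3
    refine hM m (by omega) ⟨?_, ?_⟩
    · have : ¬ ∀ j, (m : ℕ) < tower 2 j → (m : ℕ) ^ N < tower 2 j := hm1
      push Not at this
      obtain ⟨j, hj1, hj2⟩ := this
      exact ⟨j, hj1, hj2.trans (Nat.pow_le_pow_right m.pos (by omega))⟩
    · have : ¬ ∀ j, (m : ℕ) < tower 3 j → (m : ℕ) ^ N' < tower 3 j := hm2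
      push Not at this
      obtain ⟨j, hj1, hj2⟩ := this
      exact ⟨j, hj1, hj2.trans (Nat.pow_le_pow_right m.pos (by omega))⟩
  · have hp1' : {n : ℕ+ | 1 < n}ᶜ ∈ p := (Ultrafilter.compl_mem_iff_notMem).2 hp1
    have hp2 : ({1} : Set ℕ+) ∈ p := by
      refine mem_of_superset hp1' fun n hn => ?_
      have hn' : ¬ (1 < n) := hn
      exact le_antisymm (not_lt.1 hn') (n.one_le)
    intro heq
    have e1 : ({1} : Set ℕ+) ∈ E1 p q := by
      rw [mem_E1]
      refine mem_of_superset hp2 fun n hn => ?_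
      have hn' : n = 1 := hn
      subst hn'
      refine mem_of_superset univ_mem fun m _ => ?_
      show (1 : ℕ+) ^ (m : ℕ) = 1
      exact one_pow _
    rw [heq, mem_E2] at e1
    obtain ⟨n, hn1, hn2⟩ := p.nonempty_of_mem (inter_mem e1 hp2)
    have hn2' : n = 1 := hn2
    subst hn2'
    have hn3 : {m : ℕ+ | m ^ ((1 : ℕ+) : ℕ) ∈ ({1} : Set ℕ+)} ∈ q := hn1
    obtain ⟨m, hm1, hm2⟩ := q.nonempty_of_mem (inter_mem hn3 (hlarge 1))
    have hm3 : m ^ 1 = 1 := hm1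
    have hm4 : 1 < m := hm2
    rw [pow_one] at hm3
    exact absurd hm3 hm4.ne'

theorem E1_pure (p : Ultrafilter ℕ+) (m : ℕ+) : E1 p (pure m) = E2 (pure m) p := by
  ext A
  rfl

theorem E2_pure (p : Ultrafilter ℕ+) (m : ℕ+) : E2 p (pure m) = E1 (pure m) p := by
  ext A
  rfl

/-- For ultrafilters `p`, `q` on the positive integers, `E1 p q = E2 p q` holds if and only if `p`
and `q` are principal at positive integers `n`, `m` with `n ^ m = m ^ n`. -/
theorem result : ∀ p q : Ultrafilter ℕ+, E1 p q = E2 p q ↔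
    ∃ n m : ℕ+, p = pure n ∧ q = pure m ∧ n ^ (m : ℕ) = m ^ (n : ℕ) := by
  intro p q
  constructor
  · intro h
    by_cases hq : ∀ n : ℕ+, q ≠ pure n
    · exact absurd h (second p q hq)
    push Not at hq
    obtain ⟨m, rfl⟩ := hq
    by_cases hp : ∀ n : ℕ+, p ≠ pure n
    · rw [E1_pure, E2_pure] at h
      exact absurd h.symm (second (pure m) p hp)
    push Not at hp
    obtain ⟨n, rfl⟩ := hp
    refine ⟨n, m, rfl, rfl, ?_⟩
    have h1 : ({n ^ (m : ℕ)} : Set ℕ+) ∈ E1 (pure n) (pure m) := by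
      rw [mem_E1]
      show n ^ (m : ℕ) = n ^ (m : ℕ)
      rfl
    rw [h, mem_E2] at h1
    have h2 : m ^ (n : ℕ) = n ^ (m : ℕ) := h1
    exact h2.symm
  · rintro ⟨n, m, rfl, rfl, h⟩
    ext A
    show n ^ (m : ℕ) ∈ A ↔ m ^ (n : ℕ) ∈ A
    rw [h]

end Pool.Agent.Results.MP_846ee0_co.OnlyTrivial
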